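import Pool.Agent.Helper4.SQ.GoalsR2
import Pool.Agent.Helper19.SQ.Homg

/-!
Project SQ (MP_bb32d1_al), packet ALLI: all traces are invariant.
-/

set_option autoImplicit false
set_option linter.unusedSectionVars false

namespace Pool.Agent.Helper80.SQ

noncomputable section

open Matrix Pool.Agent.Helper19.SQ Pool.Agent.Helper34.SQ Pool.Agent.Helper41.SQ
open Pool.Agent.Helper4.SQ

/-- the eigenspaces of `tor s` span. -/
theorem eig_top (N l : ℕ) (q : ℂ) (hl : l ≠ 0) (s : ℕ → ℂˣ) :
    ⨆ ζ, Module.End.eigenspace ((tor N l q hl s).toLinearMap : Module.End ℂ (A N l q)) ζ = ⊤ := by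
  rw [eq_top_iff, ← Gdeg_iSup (N := N) (q := q) hl]
  exact iSup_le fun μ => le_trans (Gdeg_le hl s μ) (le_iSup _ _)

/-- **ALLI**. -/
theorem sALLI : S_ALLI := by
  classical
  intro N l _ q hl s D C hC hZ τ hτ
  have hφ : ∀ a, C.φ a = tor N l q hl s a := hC.c0.φ
  set f : Module.End ℂ (A N l q) := (tor N l q hl s).toLinearMap with hf
  have hfx : ∀ x, f x = tor N l q hl s x := fun _ => rfl
  have htop : ⨆ ζ, f.eigenspace ζ = ⊤ := eig_top N l q hl s
  have hind : iSupIndep fun ζ : ℂ => f.eigenspace ζ := f.eigenspaces_iSupIndep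
  -- traces of eigenvectors
  have key : ∀ η : ℂ, η ≠ 1 → ∀ x ∈ f.eigenspace η, τ x = 0 := by
    intro η hη
    have hc : IsCompl (f.eigenspace η) (⨆ (ζ) (_ : ζ ≠ η), f.eigenspace ζ) := by
      refine ⟨hind η, ?_⟩
      rw [codisjoint_iff, eq_top_iff, ← htop]
      refine iSup_le fun ζ => ?_
      by_cases h : ζ = η
      · rw [h]; exact le_sup_left
      · exact le_trans (le_iSup₂_of_le (f := fun ζ (_ : ζ ≠ η) => f.eigenspace ζ) ζ h le_rfl)
          le_sup_right
    set p := Submodule.projection _ _ hc with hp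
    have p1 : ∀ x ∈ f.eigenspace η, p x = x := fun x hx =>
      Submodule.projection_apply_of_mem_left hc hx
    have p2 : ∀ ζ, ζ ≠ η → ∀ x ∈ f.eigenspace ζ, p x = 0 := fun ζ hζ x hx =>
      Submodule.projection_apply_of_mem_right hc
        ((le_iSup₂_of_le (f := fun ζ (_ : ζ ≠ η) => f.eigenspace ζ) ζ hζ le_rfl) hx)
    set σ : A N l q →ₗ[ℂ] ℂ := τ ∘ₗ p with hσ
    have hσx : ∀ x, σ x = τ (p x) := fun _ => rfl
    have emul : ∀ ζ ξ : ℂ, ∀ x ∈ f.eigenspace ζ, ∀ y ∈ f.eigenspace ξ,
        x * y ∈ f.eigenspace (ζ * ξ) := by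
      intro ζ ξ x hx y hy
      rw [Module.End.mem_eigenspace_iff] at hx hy ⊢
      rw [hfx] at hx hy ⊢
      rw [map_mul, hx, hy, smul_mul_smul_comm]
    -- `σ` is a trace
    have htr : ∀ x y, σ (x * y) = σ (y * x) := by
      intro x y
      have hx : x ∈ ⨆ ζ, f.eigenspace ζ := by rw [htop]; exact Submodule.mem_top
      have hy : y ∈ ⨆ ζ, f.eigenspace ζ := by rw [htop]; exact Submodule.mem_top
      refine Submodule.iSup_induction (fun ζ => f.eigenspace ζ)
        (motive := fun x => σ (x * y) = σ (y * x)) hx ?_ ?_ ?_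
      · intro ζ x hx
        refine Submodule.iSup_induction (fun ζ => f.eigenspace ζ)
          (motive := fun y => σ (x * y) = σ (y * x)) hy ?_ ?_ ?_
        · intro ξ y hy
          have h1 := emul ζ ξ x hx y hy
          have h2 := emul ξ ζ y hy x hx
          rw [mul_comm ξ ζ] at h2
          rw [hσx, hσx]
          by_cases h : ζ * ξ = η
          · rw [h] at h1 h2
            rw [p1 _ h1, p1 _ h2, hτ]
          · rw [p2 _ h _ h1, p2 _ h _ h2]
        · rw [mul_zero, zero_mul]
        · intro y z hy hz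
          rw [mul_add, add_mul, map_add, map_add, hy, hz]
      · rw [mul_zero, zero_mul]
      · intro x z hx hz
        rw [mul_add, add_mul, map_add, map_add, hx, hz]
    have heq : ∀ x, σ (C.φ x) = η * σ x := by
      intro x
      have hx : x ∈ ⨆ ζ, f.eigenspace ζ := by rw [htop]; exact Submodule.mem_top
      refine Submodule.iSup_induction (fun ζ => f.eigenspace ζ)
        (motive := fun x => σ (C.φ x) = η * σ x) hx ?_ ?_ ?_
      · intro ζ x hx
        have hx' := hx
        rw [Module.End.mem_eigenspace_iff, hfx] at hx'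
        rw [hφ, hx', map_smul, hσx, smul_eq_mul]
        by_cases h : ζ = η
        · rw [h]
        · rw [p2 ζ h x hx, map_zero, mul_zero, mul_zero]
      · rw [map_zero, map_zero, mul_zero]
      · intro x z hx hz
        rw [map_add, map_add, map_add, hx, hz, mul_add]
    -- the blocks
    have hblk : ∀ m x, σ (x * C.e m) = 0 := by
      intro m x
      let σm : A N l q →ₗ[ℂ] ℂ := σ ∘ₗ LinearMap.mulRight ℂ (C.e m)
      have hσm : ∀ x, σm x = σ (x * C.e m) := fun _ => rfl
      have hI : IsTrz C η m σm := by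
        refine ⟨fun x y => ?_, fun x => ?_, fun x => ?_⟩
        · rw [hσm, hσm, mul_assoc x y, htr x, mul_assoc y, C.e_cen m x, ← mul_assoc]
        · rw [hσm, hσm, ← heq, map_mul C.φ, C.φe]
        · rw [hσm, hσm, mul_assoc, C.e_idem]
      have h0 := hZ η m hη σm hI
      rw [← hσm, h0]; rfl
    have hσ0 : ∀ x, σ x = 0 := by
      intro x
      have : σ x = ∑ m ∈ C.types, σ (x * C.e m) := by
        rw [← map_sum, ← Finset.mul_sum, C.e_sum, mul_one]
      rw [this]
      exact Finset.sum_eq_zero fun m _ => hblk m x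
    intro x hx
    have := hσ0 x
    rwa [hσx, p1 x hx] at this
  refine ⟨hτ, fun x => ?_⟩
  change τ (C.φ x) = τ x
  have hx : x ∈ ⨆ ζ, f.eigenspace ζ := by rw [htop]; exact Submodule.mem_top
  refine Submodule.iSup_induction (fun ζ => f.eigenspace ζ)
    (motive := fun x => τ (C.φ x) = τ x) hx ?_ ?_ ?_
  · intro ζ x hx
    have hx' := hx
    rw [Module.End.mem_eigenspace_iff, hfx] at hx'
    rw [hφ, hx', map_smul, smul_eq_mul]
    by_cases h : ζ = 1
    · rw [h, one_mul]
    · rw [key ζ h x hx, mul_zero]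
  · rw [map_zero]
  · intro x z hx hz
    rw [map_add, map_add, map_add, hx, hz]

end

end Pool.Agent.Helper80.SQ
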