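import Pool.Agent.Helper4.SQ.GoalsR2

/-!
Project SQ (MP_bb32d1_al), packet OPG: `[E[f], F[g]] = - pi_{fg}` on the invariant traces.
-/

set_option autoImplicit false
set_option linter.unusedSectionVars false

namespace Pool.Agent.Helper80.SQ

noncomputable section

open Matrix Pool.Agent.Helper19.SQ Pool.Agent.Helper34.SQ Pool.Agent.Helper41.SQ
open Pool.Agent.Helper4.SQ

section ops

variable {A : Type} [Ring A] [Algebra ℂ A] {ι : Type} [Fintype ι] [DecidableEq ι]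

theorem pev_add' {κ : Type} [Fintype κ] [DecidableEq κ] (f g : Polynomial ℂ)
    (X : Matrix κ κ A) : pev (f + g) X = pev f X + pev g X := by
  rw [pev, pev, pev, map_add]

theorem pev_smul' {κ : Type} [Fintype κ] [DecidableEq κ] (c : ℂ) (f : Polynomial ℂ)
    (X : Matrix κ κ A) : pev (c • f) X = c • pev f X := by
  rw [pev, pev, map_smul]

theorem vv_add' (Hs : A →ₐ[ℂ] Matrix ι ι A) (Z Z' : Matrix ι ι A) :
    vv Hs (Z + Z') = vv Hs Z + vv Hs Z' := by
  ext K I
  rw [vv_apply, Matrix.add_apply, vv_apply, vv_apply, ← Finset.sum_add_distrib]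
  exact Finset.sum_congr rfl fun P _ => by rw [Matrix.add_apply, map_add, Matrix.add_apply]

theorem vv_smul' (Hs : A →ₐ[ℂ] Matrix ι ι A) (c : ℂ) (Z : Matrix ι ι A) :
    vv Hs (c • Z) = c • vv Hs Z := by
  ext K I
  rw [vv_apply, Matrix.smul_apply, vv_apply, Finset.smul_sum]
  exact Finset.sum_congr rfl fun P _ => by rw [Matrix.smul_apply, map_smul, Matrix.smul_apply]

theorem FO_add' (C : Core0 A ι) (f g : Polynomial ℂ) (τ : A →ₗ[ℂ] ℂ) :
    FO C (f + g) τ = FO C f τ + FO C g τ := by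
  refine LinearMap.ext fun x => ?_
  rw [LinearMap.add_apply, FO_apply, FO_apply, FO_apply, pev_add', mul_add, Matrix.trace_add,
    map_add]

theorem FO_smul' (C : Core0 A ι) (c : ℂ) (f : Polynomial ℂ) (τ : A →ₗ[ℂ] ℂ) :
    FO C (c • f) τ = c • FO C f τ := by
  refine LinearMap.ext fun x => ?_
  rw [LinearMap.smul_apply, FO_apply, FO_apply, pev_smul', mul_smul_comm, Matrix.trace_smul,
    map_smul]

theorem EO_add' (C : Core0 A ι) (f g : Polynomial ℂ) (τ : A →ₗ[ℂ] ℂ) :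
    EO C (f + g) τ = EO C f τ + EO C g τ := by
  refine LinearMap.ext fun x => ?_
  rw [LinearMap.add_apply, EO_apply, EO_apply, EO_apply, pev_add', vv_add', mul_add,
    Matrix.trace_add, map_add]

theorem EO_smul' (C : Core0 A ι) (c : ℂ) (f : Polynomial ℂ) (τ : A →ₗ[ℂ] ℂ) :
    EO C (c • f) τ = c • EO C f τ := by
  refine LinearMap.ext fun x => ?_
  rw [LinearMap.smul_apply, EO_apply, EO_apply, pev_smul', vv_smul', mul_smul_comm,
    Matrix.trace_smul, map_smul]

theorem MO_add' (z z' : A) (τ : A →ₗ[ℂ] ℂ) : MO (z + z') τ = MO z τ + MO z' τ := by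
  refine LinearMap.ext fun x => ?_
  rw [LinearMap.add_apply, MO_apply, MO_apply, MO_apply, add_mul, map_add]

theorem MO_smul' (c : ℂ) (z : A) (τ : A →ₗ[ℂ] ℂ) : MO (c • z) τ = c • MO z τ := by
  refine LinearMap.ext fun x => ?_
  rw [LinearMap.smul_apply, MO_apply, MO_apply, smul_mul_assoc, map_smul]

theorem MO_comm' (z z' : A) (h : ∀ a, z * a = a * z) (τ : A →ₗ[ℂ] ℂ) :
    MO z (MO z' τ) = MO z' (MO z τ) := by
  refine LinearMap.ext fun x => ?_
  rw [MO_apply, MO_apply, MO_apply, MO_apply, ← mul_assoc, ← mul_assoc, h z']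

/-- `pair h pi` is central. -/
theorem pair_central (C : Core0 A ι) (h12 : ∀ k a, C.pi k * a = a * C.pi k) (h : Polynomial ℂ)
    (a : A) : pair h C.pi * a = a * pair h C.pi := by
  rw [pair_eq_range, Finset.sum_mul, Finset.mul_sum]
  exact Finset.sum_congr rfl fun k _ => by rw [smul_mul_assoc, mul_smul_comm, h12]

/-- `pair h pi` is fixed by `φ`. -/
theorem pair_fixed (C : Core0 A ι) (h13 : ∀ k, C.φ (C.pi k) = C.pi k) (h : Polynomial ℂ) :
    C.φ (pair h C.pi) = pair h C.pi := by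
  rw [pair_eq_range, map_sum]
  exact Finset.sum_congr rfl fun k _ => by rw [map_smul, h13]

/-- `Z(f, g) = 0` for all `g`. -/
def JJ (C : Core0 A ι) (f : Polynomial ℂ) : Prop :=
  ∀ τ ∈ Tinv C, ∀ g : Polynomial ℂ,
    EO C f (FO C g τ) - FO C g (EO C f τ) = - MO (pair (f * g) C.pi) τ

theorem JJ_add (C : Core0 A ι) {f f' : Polynomial ℂ} (hf : JJ C f) (hf' : JJ C f') :
    JJ C (f + f') := by
  intro τ hτ g
  rw [EO_add', EO_add', map_add, add_mul, pair_add, MO_add', neg_add, ← hf τ hτ g,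
    ← hf' τ hτ g]
  abel

theorem JJ_smul (C : Core0 A ι) (c : ℂ) {f : Polynomial ℂ} (hf : JJ C f) : JJ C (c • f) := by
  intro τ hτ g
  rw [EO_smul', EO_smul', map_smul, smul_mul_assoc, pair_smul, MO_smul', ← smul_sub,
    hf τ hτ g, smul_neg]

theorem JJ_mul (hOPT : S_OPT) (hOPPF : S_OPPF) (hC0 : S_CORE0) (C : Core0 A ι) (q : ℂ)
    (P : CoreQ C q) (h f : Polynomial ℂ) (hf : JJ C f) : JJ C (Dq q h * f) := by
  obtain ⟨-, -, -, -, -, -, -, -, -, -, -, h12, h13⟩ := hC0 A ι C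
  intro τ hτ g
  have cen := pair_central C h12
  have fix := pair_fixed C h13
  have hinv : MO (pair h C.pi) τ ∈ Tinv C := (hOPT A ι C).2.2 _ (cen h) (fix h) τ hτ
  -- the four commutation relations
  have e1 := (hOPPF A ι C q P (FO C g τ) h f).2
  have e2 := (hOPPF A ι C q P τ h f).2
  have e3 := (hOPPF A ι C q P τ h g).1
  have e4 := (hOPPF A ι C q P (EO C f τ) h g).1
  have e5 := hf τ hτ g
  have e6 := hf _ hinv g
  have e7 := hf τ hτ (Dq q h * g)
  have e8 : MO (pair (f * g) C.pi) (MO (pair h C.pi) τ)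
      = MO (pair h C.pi) (MO (pair (f * g) C.pi) τ) := MO_comm' _ _ (cen _) τ
  have e9 : Dq q h * f * g = f * (Dq q h * g) := by ring
  rw [← e1, ← e2, e9, ← e7]
  rw [← e3, ← e4]
  rw [map_sub, map_sub]
  have e5' : MO (pair h C.pi) (EO C f (FO C g τ)) - MO (pair h C.pi) (FO C g (EO C f τ))
      = - MO (pair h C.pi) (MO (pair (f * g) C.pi) τ) := by
    rw [← map_sub, e5, map_neg]
  have e10 : EO C f (FO C g (MO (pair h C.pi) τ)) - FO C g (EO C f (MO (pair h C.pi) τ))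
      - (MO (pair h C.pi) (EO C f (FO C g τ)) - MO (pair h C.pi) (FO C g (EO C f τ))) = 0 := by
    rw [e5', e6, e8]
    abel
  have e11 : ∀ a b c d e f' : A →ₗ[ℂ] ℂ, c - e - (b - f') = 0 →
      a - b - (e - d) = a - c - (f' - d) := by
    intro a b c d e f' hh
    have : c = e + (b - f') := by rw [sub_eq_zero] at hh; rw [← hh]; abel
    rw [this]; abel
  exact e11 _ _ _ _ _ _ e10

end ops

/-- `Dq (X^k)`. -/
theorem Dq_X_pow (q : ℂ) (hq : q ≠ 0) (k : ℕ) :
    Dq q (Polynomial.X ^ k) = (-((q ^ k - q⁻¹ ^ k) ^ 2)) • (Polynomial.X ^ k : Polynomial ℂ) := by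
  have h1 : q ^ k * q⁻¹ ^ k = 1 := by rw [← mul_pow, mul_inv_cancel₀ hq, one_pow]
  rw [Dq, Polynomial.pow_comp, Polynomial.X_comp, Polynomial.pow_comp, Polynomial.X_comp,
    mul_pow, mul_pow, ← Polynomial.C_pow, ← Polynomial.C_pow, ← sub_mul, ← sub_mul,
    ← Polynomial.C_sub, ← Polynomial.C_sub, Polynomial.smul_eq_C_mul]
  have h2 : (2 : ℂ) - (q ^ 2) ^ k - (q⁻¹ ^ 2) ^ k = -((q ^ k - q⁻¹ ^ k) ^ 2) := by
    rw [← pow_mul, ← pow_mul, mul_comm 2 k, pow_mul, pow_mul]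
    linear_combination (-2 : ℂ) * h1
  rw [h2]

theorem qk_ne (l : ℕ) (q : ℂ) (hq : IsPrimitiveRoot q l) (hodd : Odd l) (hl : 3 ≤ l) (k : ℕ)
    (hk : ¬ l ∣ k) : (q ^ k - q⁻¹ ^ k) ^ 2 ≠ 0 := by
  have hq0 : q ≠ 0 := hq.ne_zero (by omega)
  intro h
  have h1 : q ^ k = q⁻¹ ^ k := sub_eq_zero.mp (pow_eq_zero_iff (two_ne_zero)|>.mp h)
  have h2 : q ^ (2 * k) = 1 := by
    rw [two_mul, pow_add]
    nth_rewrite 2 [h1]
    rw [← mul_pow, mul_inv_cancel₀ hq0, one_pow]
  have h3 : l ∣ 2 * k := (hq.pow_eq_one_iff_dvd _).mp h2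
  have h4 : Nat.Coprime l 2 := Nat.coprime_two_right.mpr hodd
  exact hk (h4.dvd_of_dvd_mul_left h3)

/-- **OPG**. -/
theorem sOPG (hOPT : S_OPT) (hOPEF : S_OPEF) (hOPPF : S_OPPF) (hC0 : S_CORE0) : S_OPG := by
  intro A _ _ ι _ _ C l q P hq hodd hl τ hτ f g
  have hq0 : q ≠ 0 := hq.ne_zero (by omega)
  have one : JJ C 1 := by
    intro τ hτ g
    rw [one_mul]
    exact hOPEF A ι C τ hτ.1 g
  have step : ∀ k, ¬ l ∣ k → ∀ f, JJ C f → JJ C (Polynomial.X ^ k * f) := by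
    intro k hk f hf
    have h1 := JJ_mul hOPT hOPPF hC0 C q P (Polynomial.X ^ k) f hf
    rw [Dq_X_pow q hq0] at h1
    have h2 := JJ_smul C (-((q ^ k - q⁻¹ ^ k) ^ 2))⁻¹ h1
    have h3 : -((q ^ k - q⁻¹ ^ k) ^ 2) ≠ 0 := neg_ne_zero.mpr (qk_ne l q hq hodd hl k hk)
    rwa [smul_mul_assoc, smul_smul, inv_mul_cancel₀ h3, one_smul] at h2
  have hX : ∀ k, JJ C (Polynomial.X ^ k) := by
    intro k
    by_cases hk : l ∣ k
    · rcases Nat.eq_zero_or_pos k with rfl | hpos
      · rw [pow_zero]; exact one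
      · obtain ⟨k', rfl⟩ : ∃ k', k = k' + 1 := ⟨k - 1, by omega⟩
        have hk' : ¬ l ∣ k' := by
          intro h
          have : l ∣ 1 := (Nat.dvd_add_right h).mp hk
          have := Nat.le_of_dvd one_pos this
          omega
        have h1 : ¬ l ∣ 1 := by
          intro h
          have := Nat.le_of_dvd one_pos h
          omega
        have h2 := step k' hk' 1 one
        rw [mul_one] at h2
        have h3 := step 1 h1 _ h2
        rwa [pow_one, ← pow_succ'] at h3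
    · have h2 := step k hk 1 one
      rwa [mul_one] at h2
  have all : ∀ f, JJ C f := by
    intro f
    induction f using Polynomial.induction_on' with
    | add f f' hf hf' => exact JJ_add C hf hf'
    | monomial n a =>
      rw [← Polynomial.C_mul_X_pow_eq_monomial, ← Polynomial.smul_eq_C_mul]
      exact JJ_smul C a (hX n)
  exact all f τ hτ g

end

end Pool.Agent.Helper80.SQ
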