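import Pool.Agent.Helper4.SQ.GoalsR2
import Pool.Agent.Helper34.SQ.Nondeg
import Pool.Agent.Helper80.SQ.OPG

/-!
Project SQ (MP_bb32d1_al), packet COG: a family of subspaces of the spaces of traces that is
stable under the currents and zero at all `n delta_c` is zero.
-/

set_option autoImplicit false
set_option linter.unusedSectionVars false

namespace Pool.Agent.Helper80.SQ

noncomputable section

open Matrix Pool.Agent.Helper19.SQ Pool.Agent.Helper34.SQ Pool.Agent.Helper41.SQ
open Pool.Agent.Helper4.SQ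

/-- the powers of `y_c` span the polynomials. -/
theorem yc_span {l : ℕ} (q : ℂ) (c : ZMod l) (hq : qz q (2 * c) ≠ 0)
    (Q : Polynomial ℂ → Prop) (hy : ∀ r, Q (yc q c ^ r))
    (hadd : ∀ f g, Q f → Q g → Q (f + g)) (hsmul : ∀ (a : ℂ) f, Q f → Q (a • f)) :
    ∀ g, Q g := by
  have h1 : ∀ p : Polynomial ℂ, Q (p.comp (yc q c)) := by
    intro p
    induction p using Polynomial.induction_on' with
    | add f g hf hg => rw [Polynomial.add_comp]; exact hadd _ _ hf hg
    | monomial n a =>
      rw [Polynomial.monomial_comp, ← Polynomial.smul_eq_C_mul]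
      exact hsmul _ _ (hy n)
  intro g
  have h2 := h1 (g.comp (Polynomial.C (qz q (2 * c)) * (Polynomial.X + 1)))
  have h3 : (Polynomial.C (qz q (2 * c)) * (Polynomial.X + 1)).comp (yc q c)
      = (Polynomial.X : Polynomial ℂ) := by
    rw [Polynomial.mul_comp, Polynomial.C_comp, Polynomial.add_comp, Polynomial.X_comp,
      Polynomial.one_comp, yc, sub_add_cancel, ← mul_assoc, ← Polynomial.C_mul,
      mul_inv_cancel₀ hq, Polynomial.C_1, one_mul]
  rw [Polynomial.comp_assoc, h3, Polynomial.comp_X] at h2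
  exact h2

/-- **COG**. -/
theorem sCOG (hVANE : S_VANE) (hVANF : S_VANF) (hOPB : S_OPB) : S_COG := by
  intro N l _ q hl s D C hS P W hW hF hE h0 m
  have hl2 : 2 ≤ l := by have := hS.par.h3; omega
  have hω : ∀ c : ZMod l, qz q (2 * c) ≠ 0 := fun c =>
    qz_ne_zero hS.par.prim.pow_eq_one _
  have hP : OpFam C 1 (fun m τ => τ ∈ W m) := by
    refine ⟨hW, ?_, ?_⟩
    · intro c m g τ h
      have hτ := hW m τ h
      have e1 : Eg C c m g τ = EO C.toCore0 (C.pc c * g) τ := by
        refine LinearMap.ext fun x => ?_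
        rw [(hOPB (A N l q) (Fin (N + 1)) l C c m τ hτ).2.2.2.1 g x, Eg_vv]
        exact trace_comm_of_tr hτ.tr _ _
      rw [e1]
      refine yc_span q c (hω c) (fun g => EO C.toCore0 (C.pc c * g) τ ∈ W (m + al c))
        (fun r => hE m c r τ h) ?_ ?_ g
      · intro f g hf hg
        rw [mul_add, EO_add']
        exact (W (m + al c)).add_mem hf hg
      · intro a f hf
        rw [mul_smul_comm, EO_smul']
        exact (W (m + al c)).smul_mem a hf
    · intro c m g τ h
      have hτ := hW m τ h
      have e1 : Fg C c m g τ = FO C.toCore0 (C.pc c * g) τ := by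
        refine LinearMap.ext fun x => ?_
        rw [(hOPB (A N l q) (Fin (N + 1)) l C c m τ hτ).2.2.1 g x, Fg_apply]
        exact trace_comm_of_tr hτ.tr _ _
      rw [e1]
      refine yc_span q c (hω c) (fun g => FO C.toCore0 (C.pc c * g) τ ∈ W (m - al c))
        (fun r => hF m c r τ h) ?_ ?_ g
      · intro f g hf hg
        rw [mul_add, FO_add']
        exact (W (m - al c)).add_mem hf hg
      · intro a f hf
        rw [mul_smul_comm, FO_smul']
        exact (W (m - al c)).smul_mem a hf
  rw [eq_bot_iff]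
  intro τ hτ
  rw [Submodule.mem_bot]
  refine t_nondegP hVANE hVANF N l q hl s D C hS P.toCoreP hl2 1 (fun m τ => τ ∈ W m) hP ?_ m τ
    hτ
  intro c τ' hτ'
  have h1 := h0 c
  have h2 : τ' ∈ (⊥ : Submodule ℂ (A N l q →ₗ[ℂ] ℂ)) := by rw [← h1]; exact hτ'
  exact (Submodule.mem_bot ℂ).mp h2

end

end Pool.Agent.Helper80.SQ
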